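import Mathlib

set_option autoImplicit false

/-!
Definitions: the propositional fragment `L₁` of Leśniewski's ontology, unimodal formulas, normal
modal logics, and translations of `L₁` into modal logics.
-/

namespace Pool.Agent.Q216.Onto

/-- Formulas of `L₁`: atoms `ε a b` for name variables `a b`, negation, disjunction. -/
inductive OF
  | eps (a b : ℕ)
  | neg (φ : OF)
  | or (φ ψ : OF)

/-- Implication. -/
def OF.imp (φ ψ : OF) : OF := .or (.neg φ) ψ

/-- Conjunction. -/
def OF.and (φ ψ : OF) : OF := .neg (.or (.neg φ) (.neg ψ))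

/-- Truth of a formula of `L₁` under a truth assignment `v` to the atoms. -/
def OF.Holds (v : ℕ → ℕ → Prop) : OF → Prop
  | .eps a b => v a b
  | .neg φ => ¬ φ.Holds v
  | .or φ ψ => φ.Holds v ∨ ψ.Holds v

/-- Provability in `L₁`: all tautologies of the language, modus ponens, and the three schemata. -/
inductive L1 : OF → Prop
  | taut (φ : OF) (h : ∀ v, φ.Holds v) : L1 φ
  | mp (φ ψ : OF) (h₁ : L1 (φ.imp ψ)) (h₂ : L1 φ) : L1 ψ
  | ax1 (a b : ℕ) : L1 ((OF.eps a b).imp (.eps a a))
  | ax2 (a b c : ℕ) : L1 (((OF.eps a b).and (.eps b c)).imp (.eps a c))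
  | ax3 (a b c : ℕ) : L1 (((OF.eps a b).and (.eps b c)).imp (.eps b a))

/-- Modal formulas: propositional variables, negation, disjunction, box. -/
inductive MF
  | var (n : ℕ)
  | neg (φ : MF)
  | or (φ ψ : MF)
  | box (φ : MF)

/-- Implication. -/
def MF.imp (φ ψ : MF) : MF := .or (.neg φ) ψ

/-- Conjunction. -/
def MF.and (φ ψ : MF) : MF := .neg (.or (.neg φ) (.neg ψ))

/-- Equivalence. -/
def MF.iff (φ ψ : MF) : MF := .and (.imp φ ψ) (.imp ψ φ)

/-- Diamond. -/
def MF.dia (φ : MF) : MF := .neg (.box (.neg φ))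

/-- Truth-functional evaluation: variables and boxed formulas are treated as atoms. -/
def MF.Holds (v : MF → Prop) : MF → Prop
  | .var n => v (.var n)
  | .neg φ => ¬ φ.Holds v
  | .or φ ψ => φ.Holds v ∨ ψ.Holds v
  | .box φ => v (.box φ)

/-- Uniform substitution of formulas for variables. -/
def MF.subst (σ : ℕ → MF) : MF → MF
  | .var n => σ n
  | .neg φ => .neg (φ.subst σ)
  | .or φ ψ => .or (φ.subst σ) (ψ.subst σ)
  | .box φ => .box (φ.subst σ)

/-- All variables of the formula belong to `s`. -/
def MF.VarsIn (s : Set ℕ) : MF → Prop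
  | .var n => n ∈ s
  | .neg φ => φ.VarsIn s
  | .or φ ψ => φ.VarsIn s ∧ ψ.VarsIn s
  | .box φ => φ.VarsIn s

/-- A normal modal logic: a set of formulas that contains all tautologies and the axiom `K`, and
is closed under modus ponens, necessitation and uniform substitution. -/
structure IsNormal (L : Set MF) : Prop where
  taut : ∀ φ : MF, (∀ v, φ.Holds v) → φ ∈ L
  axK : MF.imp (.box (.imp (.var 0) (.var 1))) (.imp (.box (.var 0)) (.box (.var 1))) ∈ L
  mp : ∀ φ ψ : MF, MF.imp φ ψ ∈ L → φ ∈ L → ψ ∈ L
  nec : ∀ φ : MF, φ ∈ L → MF.box φ ∈ L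
  subst : ∀ (φ : MF) (σ : ℕ → MF), φ ∈ L → φ.subst σ ∈ L

/-- The smallest normal modal logic containing the set `A` of axioms. -/
def normalLogic (A : Set MF) : Set MF := ⋂₀ {L | IsNormal L ∧ A ⊆ L}

/-- The translation `t_F` of `L₁`-formulas given by the modal formula `F(x,y)` (with `x` the
variable `0` and `y` the variable `1`) and the assignment `a ↦ p a` of propositional variables to
name variables: `ε a b` is sent to `F(p a, p b)`. -/
def transl (F : MF) (p : ℕ → ℕ) : OF → MF
  | .eps a b => F.subst (fun n => if n = 0 then .var (p a) else .var (p b))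
  | .neg φ => .neg (transl F p φ)
  | .or φ ψ => .or (transl F p φ) (transl F p ψ)

/-- The modal formula `F(x,y)`, in the two variables `x = var 0` and `y = var 1`, embeds `L₁` in
the modal logic `L`: for every injective assignment of propositional variables to name variables,
a formula is provable in `L₁` exactly when its translation belongs to `L`. -/
def Embeds (F : MF) (L : Set MF) : Prop :=
  F.VarsIn {0, 1} ∧ ∀ p : ℕ → ℕ, Function.Injective p → ∀ φ : OF, L1 φ ↔ transl F p φ ∈ L

end Pool.Agent.Q216.Onto
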