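import Pool.Agent.Q216.Onto.Defs

set_option autoImplicit false

namespace Pool.Agent.Q216.Onto

/-! ### Propositional completeness of `L₁` -/

theorem L1_of_list (L : List OF) (hL : ∀ ψ ∈ L, L1 ψ) :
    ∀ φ : OF, (∀ v, (∀ ψ ∈ L, ψ.Holds v) → φ.Holds v) → L1 φ := by
  induction L with
  | nil =>
    intro φ h
    exact L1.taut φ (fun v => h v (by simp))
  | cons χ L ih =>
    intro φ h
    have h1 : L1 (χ.imp φ) := by
      apply ih (fun ψ hψ => hL ψ (List.mem_cons_of_mem _ hψ))
      intro v hv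
      by_cases hχ : χ.Holds v
      · exact Or.inr (h v (by
          intro ψ hψ
          rcases List.mem_cons.1 hψ with rfl | hψ
          · exact hχ
          · exact hv ψ hψ))
      · exact Or.inl hχ
    exact L1.mp χ φ h1 (hL χ (by simp))

/-- The relation `ε` satisfies the axioms of `L₁`. -/
structure IsEps (e : ℕ → ℕ → Prop) : Prop where
  ax1 : ∀ a b, e a b → e a a
  ax2 : ∀ a b c, e a b → e b c → e a c
  ax3 : ∀ a b c, e a b → e b c → e b a

/-- All names of the formula are below `n`. -/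
def OF.Below (n : ℕ) : OF → Prop
  | .eps a b => a < n ∧ b < n
  | .neg φ => φ.Below n
  | .or φ ψ => φ.Below n ∧ ψ.Below n

theorem OF.Below.mono {m n : ℕ} (h : m ≤ n) : ∀ {φ : OF}, φ.Below m → φ.Below n
  | .eps _ _, h1 => ⟨lt_of_lt_of_le h1.1 h, lt_of_lt_of_le h1.2 h⟩
  | .neg φ, h1 => OF.Below.mono h (φ := φ) h1
  | .or φ ψ, h1 => ⟨OF.Below.mono h (φ := φ) h1.1, OF.Below.mono h (φ := ψ) h1.2⟩

theorem OF.exists_below : ∀ φ : OF, ∃ n, φ.Below n
  | .eps a b => ⟨a + b + 1, by constructor <;> omega⟩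
  | .neg φ => OF.exists_below φ
  | .or φ ψ => by
    obtain ⟨m, hm⟩ := OF.exists_below φ
    obtain ⟨n, hn⟩ := OF.exists_below ψ
    exact ⟨max m n, OF.Below.mono (le_max_left _ _) hm, OF.Below.mono (le_max_right _ _) hn⟩

theorem OF.holds_congr {n : ℕ} {v w : ℕ → ℕ → Prop} (h : ∀ a b, a < n → b < n → (v a b ↔ w a b)) :
    ∀ {φ : OF}, φ.Below n → (φ.Holds v ↔ φ.Holds w)
  | .eps a b, h1 => h a b h1.1 h1.2
  | .neg φ, h1 => not_congr (OF.holds_congr h (φ := φ) h1)
  | .or φ ψ, h1 => or_congr (OF.holds_congr h (φ := φ) h1.1) (OF.holds_congr h (φ := ψ) h1.2)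

theorem OF.holds_imp (v : ℕ → ℕ → Prop) (φ ψ : OF) :
    (φ.imp ψ).Holds v ↔ (φ.Holds v → ψ.Holds v) := by
  show (¬ φ.Holds v ∨ ψ.Holds v) ↔ _
  tauto

theorem OF.holds_and (v : ℕ → ℕ → Prop) (φ ψ : OF) :
    (φ.and ψ).Holds v ↔ (φ.Holds v ∧ ψ.Holds v) := by
  show (¬ (¬ φ.Holds v ∨ ¬ ψ.Holds v)) ↔ _
  tauto

/-- Completeness of `L₁` with respect to the relations satisfying the axioms. -/
theorem L1_complete (φ : OF) (h : ∀ e, IsEps e → φ.Holds e) : L1 φ := by
  classical
  obtain ⟨n, hn⟩ := OF.exists_below φ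
  let L : List OF :=
    ((List.range n).flatMap fun a => (List.range n).flatMap fun b =>
      ((OF.eps a b).imp (.eps a a)) :: ((List.range n).flatMap fun c =>
        [((OF.eps a b).and (.eps b c)).imp (.eps a c),
          ((OF.eps a b).and (.eps b c)).imp (.eps b a)]))
  apply L1_of_list L
  · intro ψ hψ
    simp only [L, List.mem_flatMap, List.mem_cons, List.mem_range] at hψ
    obtain ⟨a, -, b, -, hψ⟩ := hψ
    rcases hψ with rfl | ⟨c, -, hψ⟩
    · exact L1.ax1 a b
    · rcases hψ with rfl | rfl | hψ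
      · exact L1.ax2 a b c
      · exact L1.ax3 a b c
      · cases hψ
  · intro v hv
    have m1 : ∀ a b, a < n → b < n → v a b → v a a := by
      intro a b ha hb
      have := hv ((OF.eps a b).imp (.eps a a)) (by
        simp only [L, List.mem_flatMap, List.mem_cons, List.mem_range]
        exact ⟨a, ha, b, hb, Or.inl rfl⟩)
      rw [OF.holds_imp] at this
      exact this
    have m2 : ∀ a b c, a < n → b < n → c < n → v a b → v b c → v a c := by
      intro a b c ha hb hc h1 h2
      have := hv (((OF.eps a b).and (.eps b c)).imp (.eps a c)) (by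
        simp only [L, List.mem_flatMap, List.mem_cons, List.mem_range]
        exact ⟨a, ha, b, hb, Or.inr ⟨c, hc, Or.inl rfl⟩⟩)
      rw [OF.holds_imp, OF.holds_and] at this
      exact this ⟨h1, h2⟩
    have m3 : ∀ a b c, a < n → b < n → c < n → v a b → v b c → v b a := by
      intro a b c ha hb hc h1 h2
      have := hv (((OF.eps a b).and (.eps b c)).imp (.eps b a)) (by
        simp only [L, List.mem_flatMap, List.mem_cons, List.mem_range]
        exact ⟨a, ha, b, hb, Or.inr ⟨c, hc, Or.inr (Or.inl rfl)⟩⟩)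
      rw [OF.holds_imp, OF.holds_and] at this
      exact this ⟨h1, h2⟩
    have he : IsEps (fun a b => a < n ∧ b < n ∧ v a b) := by
      refine ⟨?_, ?_, ?_⟩
      · rintro a b ⟨ha, hb, h1⟩
        exact ⟨ha, ha, m1 a b ha hb h1⟩
      · rintro a b c ⟨ha, hb, h1⟩ ⟨-, hc, h2⟩
        exact ⟨ha, hc, m2 a b c ha hb hc h1 h2⟩
      · rintro a b c ⟨ha, hb, h1⟩ ⟨-, hc, h2⟩
        exact ⟨hb, ha, m3 a b c ha hb hc h1 h2⟩
    have h1 := h _ he
    rw [OF.holds_congr (n := n) (w := v) (by
      intro a b ha hb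
      constructor
      · exact fun h => h.2.2
      · exact fun h => ⟨ha, hb, h⟩) hn] at h1
    exact h1

/-! ### Kripke semantics -/

/-- Truth in a Kripke model. -/
def MF.Sat {W : Type} (R : W → W → Prop) (V : ℕ → W → Prop) : MF → W → Prop
  | .var n, w => V n w
  | .neg φ, w => ¬ φ.Sat R V w
  | .or φ ψ, w => φ.Sat R V w ∨ ψ.Sat R V w
  | .box φ, w => ∀ u, R w u → φ.Sat R V u

section Sat
variable {W : Type} (R : W → W → Prop) (V : ℕ → W → Prop)

theorem sat_imp (φ ψ : MF) (w : W) :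
    (φ.imp ψ).Sat R V w ↔ (φ.Sat R V w → ψ.Sat R V w) := by
  show (¬ φ.Sat R V w ∨ ψ.Sat R V w) ↔ _
  tauto

theorem sat_and (φ ψ : MF) (w : W) :
    (φ.and ψ).Sat R V w ↔ (φ.Sat R V w ∧ ψ.Sat R V w) := by
  show (¬ (¬ φ.Sat R V w ∨ ¬ ψ.Sat R V w)) ↔ _
  tauto

theorem sat_iff (φ ψ : MF) (w : W) :
    (φ.iff ψ).Sat R V w ↔ (φ.Sat R V w ↔ ψ.Sat R V w) := by
  unfold MF.iff
  rw [sat_and, sat_imp, sat_imp]
  tauto

theorem sat_dia (φ : MF) (w : W) :
    (φ.dia).Sat R V w ↔ ∃ u, R w u ∧ φ.Sat R V u := by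
  show (¬ ∀ u, R w u → ¬ φ.Sat R V u) ↔ _
  push Not
  exact Iff.rfl

theorem sat_subst (σ : ℕ → MF) : ∀ (φ : MF) (w : W),
    (φ.subst σ).Sat R V w ↔ φ.Sat R (fun n u => (σ n).Sat R V u) w
  | .var _, _ => Iff.rfl
  | .neg φ, w => not_congr (sat_subst σ φ w)
  | .or φ ψ, w => or_congr (sat_subst σ φ w) (sat_subst σ ψ w)
  | .box φ, _ => forall_congr' fun u => imp_congr_right fun _ => sat_subst σ φ u

theorem sat_holds (w : W) : ∀ φ : MF, φ.Holds (fun ψ => ψ.Sat R V w) ↔ φ.Sat R V w
  | .var _ => Iff.rfl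
  | .neg φ => not_congr (sat_holds w φ)
  | .or φ ψ => or_congr (sat_holds w φ) (sat_holds w ψ)
  | .box _ => Iff.rfl

end Sat

/-- The logic of a frame. -/
def logicOf {W : Type} (R : W → W → Prop) : Set MF := {φ | ∀ V w, φ.Sat R V w}

theorem logicOf_normal {W : Type} (R : W → W → Prop) : IsNormal (logicOf R) where
  taut φ h V w := (sat_holds R V w φ).1 (h _)
  axK V w := by
    rw [sat_imp, sat_imp]
    intro h1 h2 u hu
    have h3 := h1 u hu
    rw [sat_imp] at h3
    exact h3 (h2 u hu)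
  mp φ ψ h1 h2 V w := by
    have h3 := h1 V w
    rw [sat_imp] at h3
    exact h3 (h2 V w)
  nec φ h V w u _ := h V u
  subst φ σ h V w := (sat_subst R V σ φ w).2 (h _ w)

/-! ### The translation -/

/-- The formula `x ∧ ((y ∧ □(x ↔ y)) ∨ (¬ y ∧ ◇(¬ x ∧ y)))`. -/
def chi (x y : MF) : MF :=
  .and x (.or (.and y (.box (.iff x y))) (.and (.neg y) (.dia (.and (.neg x) y))))

/-- The embedding formula. -/
def F₀ : MF := chi (.var 0) (.var 1)

theorem F₀_vars : F₀.VarsIn {0, 1} := by
  simp [F₀, chi, MF.VarsIn, MF.and, MF.iff, MF.imp, MF.dia]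

theorem transl_eps (p : ℕ → ℕ) (a b : ℕ) :
    transl F₀ p (.eps a b) = chi (.var (p a)) (.var (p b)) := by
  simp [transl, F₀, chi, MF.subst, MF.and, MF.iff, MF.imp, MF.dia]

section Normal

variable {L : Set MF} (hL : IsNormal L)
include hL

theorem mem_K (φ ψ : MF) : MF.imp (.box (.imp φ ψ)) (.imp (.box φ) (.box ψ)) ∈ L := by
  have := hL.subst _ (fun n => if n = 0 then φ else ψ) hL.axK
  simpa [MF.subst, MF.imp] using this

theorem mem_box_imp (φ ψ : MF) (h : MF.imp φ ψ ∈ L) : MF.imp (.box φ) (.box ψ) ∈ L :=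
  hL.mp _ _ (mem_K hL φ ψ) (hL.nec _ h)

/-- Propositional consequence of one member. -/
theorem mem_of₁ (φ ψ : MF) (hφ : φ ∈ L) (h : ∀ v, φ.Holds v → ψ.Holds v) : ψ ∈ L := by
  refine hL.mp φ ψ (hL.taut _ fun v => ?_) hφ
  show ¬ φ.Holds v ∨ ψ.Holds v
  by_cases h1 : φ.Holds v
  · exact Or.inr (h v h1)
  · exact Or.inl h1

/-- Propositional consequence of two members. -/
theorem mem_of₂ (φ χ ψ : MF) (hφ : φ ∈ L) (hχ : χ ∈ L)
    (h : ∀ v, φ.Holds v → χ.Holds v → ψ.Holds v) : ψ ∈ L := by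
  refine hL.mp χ ψ (mem_of₁ hL φ _ hφ fun v h1 => ?_) hχ
  show ¬ χ.Holds v ∨ ψ.Holds v
  by_cases h2 : χ.Holds v
  · exact Or.inr (h v h1 h2)
  · exact Or.inl h2

/-- Monotonicity of the box in two premises. -/
theorem mem_box₂ (A B C : MF) (h : ∀ v, A.Holds v → B.Holds v → C.Holds v) :
    MF.imp (.box A) (.imp (.box B) (.box C)) ∈ L := by
  have h1 : MF.imp A (.imp B C) ∈ L := by
    refine hL.taut _ fun v => ?_
    show ¬ A.Holds v ∨ (¬ B.Holds v ∨ C.Holds v)
    have := h v
    tauto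
  refine mem_of₂ hL _ _ _ (mem_box_imp hL _ _ h1) (mem_K hL B C) fun v h2 h3 => ?_
  simp only [MF.imp, MF.Holds] at *
  tauto

theorem ax1_mem (x y : MF) : MF.imp (chi x y) (chi x x) ∈ L := by
  have h1 : MF.box (.iff x x) ∈ L := by
    refine hL.nec _ (hL.taut _ fun v => ?_)
    simp only [MF.iff, MF.and, MF.imp, MF.Holds]
    tauto
  refine mem_of₁ hL _ _ h1 fun v h2 => ?_
  simp only [chi, MF.iff, MF.and, MF.imp, MF.dia, MF.Holds] at *
  tauto

theorem ax2_mem (x y z : MF) : MF.imp (.and (chi x y) (chi y z)) (chi x z) ∈ L := by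
  have h1 : MF.imp (.box (.iff x y)) (.imp (.box (.iff y z)) (.box (.iff x z))) ∈ L := by
    refine mem_box₂ hL _ _ _ fun v => ?_
    simp only [MF.iff, MF.and, MF.imp, MF.Holds]
    tauto
  have h2 : MF.imp (.box (.iff x y)) (.imp (.box (.neg (.and (.neg x) z)))
      (.box (.neg (.and (.neg y) z)))) ∈ L := by
    refine mem_box₂ hL _ _ _ fun v => ?_
    simp only [MF.iff, MF.and, MF.imp, MF.Holds]
    tauto
  refine mem_of₂ hL _ _ _ h1 h2 fun v h3 h4 => ?_
  simp only [chi, MF.iff, MF.and, MF.imp, MF.dia, MF.Holds] at *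
  tauto

theorem ax3_mem (x y z : MF) : MF.imp (.and (chi x y) (chi y z)) (chi y x) ∈ L := by
  have h1 : MF.imp (.box (.iff x y)) (.box (.iff y x)) ∈ L := by
    refine mem_box_imp hL _ _ (hL.taut _ fun v => ?_)
    simp only [MF.iff, MF.and, MF.imp, MF.Holds]
    tauto
  refine mem_of₁ hL _ _ h1 fun v h3 => ?_
  simp only [chi, MF.iff, MF.and, MF.imp, MF.dia, MF.Holds] at *
  tauto

omit hL in
theorem transl_holds (p : ℕ → ℕ) (v : MF → Prop) : ∀ φ : OF,
    (transl F₀ p φ).Holds v ↔
      φ.Holds (fun a b => (transl F₀ p (.eps a b)).Holds v)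
  | .eps _ _ => Iff.rfl
  | .neg φ => not_congr (transl_holds p v φ)
  | .or φ ψ => or_congr (transl_holds p v φ) (transl_holds p v ψ)

/-- The translation is sound for every normal modal logic. -/
theorem transl_sound (p : ℕ → ℕ) (φ : OF) (h : L1 φ) : transl F₀ p φ ∈ L := by
  induction h with
  | taut φ h => exact hL.taut _ fun v => (transl_holds p v φ).2 (h _)
  | mp φ ψ _ _ ih1 ih2 => exact hL.mp _ _ ih1 ih2
  | ax1 a b =>
    show MF.imp (transl F₀ p (.eps a b)) (transl F₀ p (.eps a a)) ∈ L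
    rw [transl_eps, transl_eps]
    exact ax1_mem hL _ _
  | ax2 a b c =>
    show MF.imp (.and (transl F₀ p (.eps a b)) (transl F₀ p (.eps b c)))
      (transl F₀ p (.eps a c)) ∈ L
    rw [transl_eps, transl_eps, transl_eps]
    exact ax2_mem hL _ _ _
  | ax3 a b c =>
    show MF.imp (.and (transl F₀ p (.eps a b)) (transl F₀ p (.eps b c)))
      (transl F₀ p (.eps b a)) ∈ L
    rw [transl_eps, transl_eps, transl_eps]
    exact ax3_mem hL _ _ _

end Normal

/-- The worlds: a root, a top world and one leaf for each name.  -/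
inductive World
  | root
  | top
  | leaf (c : ℕ)

/-- The valuation of the name `a` given by the relation `e`. -/
def val (e : ℕ → ℕ → Prop) (a : ℕ) : World → Prop
  | .root => e a a
  | .top => e a a
  | .leaf c => (e a a ∧ ¬ e c a) ∨ (¬ e a a ∧ e c a)

/-- If a frame relation on the worlds is reflexive, the root sees all leaves, then the translation
is faithful for its logic. -/
theorem transl_faithful (R : World → World → Prop) (h1 : ∀ c, R .root (.leaf c))
    (p : ℕ → ℕ) (hp : Function.Injective p) (φ : OF) (h : transl F₀ p φ ∈ logicOf R) :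
    L1 φ := by
  refine L1_complete φ fun e he => ?_
  have h3 := h (fun n w => ∃ a, p a = n ∧ val e a w) World.root
  have hv : ∀ a w, (∃ b, p b = p a ∧ val e b w) ↔ val e a w := by
    intro a w
    constructor
    · rintro ⟨b, hb, hv⟩
      rw [← hp hb]; exact hv
    · exact fun h => ⟨a, rfl, h⟩
  have key : ∀ ψ : OF, (transl F₀ p ψ).Sat R (fun n w => ∃ a, p a = n ∧ val e a w) World.root ↔
      ψ.Holds e := by
    intro ψ
    induction ψ with
    | eps a b =>
      rw [transl_eps]
      unfold chi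
      have ho : ∀ (A B : MF) (w : World),
          (MF.or A B).Sat R (fun n w => ∃ a, p a = n ∧ val e a w) w ↔
          (A.Sat R (fun n w => ∃ a, p a = n ∧ val e a w) w ∨
            B.Sat R (fun n w => ∃ a, p a = n ∧ val e a w) w) := fun _ _ _ => Iff.rfl
      have hn : ∀ (A : MF) (w : World),
          (MF.neg A).Sat R (fun n w => ∃ a, p a = n ∧ val e a w) w ↔
          ¬ (A.Sat R (fun n w => ∃ a, p a = n ∧ val e a w) w) := fun _ _ => Iff.rfl
      have hb : ∀ (A : MF) (w : World),
          (MF.box A).Sat R (fun n w => ∃ a, p a = n ∧ val e a w) w ↔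
          ∀ u, R w u → (A.Sat R (fun n w => ∃ a, p a = n ∧ val e a w) u) := fun _ _ => Iff.rfl
      have hvar : ∀ (a : ℕ) (w : World),
          (MF.var (p a)).Sat R (fun n w => ∃ a, p a = n ∧ val e a w) w ↔ val e a w :=
        fun a w => hv a w
      rw [sat_and, ho, sat_and, sat_and, hb, hn, sat_dia, hvar, hvar]
      simp only [sat_iff, sat_and, hn, hvar]
      show (e a a ∧ (e b b ∧ (∀ u, R World.root u → (val e a u ↔ val e b u)) ∨
        ¬ e b b ∧ ∃ u, R World.root u ∧ ¬ val e a u ∧ val e b u)) ↔ e a b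
      constructor
      · rintro ⟨haa, ⟨hbb, h4⟩ | ⟨hbb, u, hu, h5, h6⟩⟩
        · have h7 := h4 (.leaf a) (h1 a)
          simp only [val] at h7
          tauto
        · cases u with
          | root => exact absurd haa h5
          | top => exact absurd haa h5
          | leaf c =>
            have h8 : e c a := by
              by_contra h9
              exact h5 (Or.inl ⟨haa, h9⟩)
            have h9 : e c b := by
              rcases h6 with h6 | h6
              · exact absurd h6.1 hbb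
              · exact h6.2
            exact he.ax2 a c b (he.ax3 c a a h8 haa) h9
      · intro hab
        have haa := he.ax1 a b hab
        refine ⟨haa, ?_⟩
        by_cases hbb : e b b
        · refine Or.inl ⟨hbb, ?_⟩
          intro u _
          cases u with
          | root => exact ⟨fun _ => hbb, fun _ => haa⟩
          | top => exact ⟨fun _ => hbb, fun _ => haa⟩
          | leaf c =>
            have hba := he.ax3 a b b hab hbb
            have h4 : e c a ↔ e c b :=
              ⟨fun h => he.ax2 c a b h hab, fun h => he.ax2 c b a h hba⟩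
            simp only [val]
            tauto
        · refine Or.inr ⟨hbb, .leaf a, h1 a, ?_, ?_⟩
          · rintro (h4 | h4)
            · exact h4.2 haa
            · exact h4.1 haa
          · exact Or.inr ⟨hbb, hab⟩
    | neg ψ ih => exact not_congr ih
    | or ψ χ ih1 ih2 => exact or_congr ih1 ih2
  exact (key φ).1 h3

/-- General embedding criterion. -/
theorem embeds_of (A : Set MF) (R : World → World → Prop) (h1 : ∀ c, R .root (.leaf c))
    (hA : A ⊆ logicOf R) : Embeds F₀ (normalLogic A) := by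
  refine ⟨F₀_vars, fun p hp φ => ⟨fun h => ?_, fun h => ?_⟩⟩
  · rintro L ⟨hL, -⟩
    exact transl_sound hL p φ h
  · refine transl_faithful R h1 p hp φ ?_
    exact h (logicOf R) ⟨logicOf_normal R, hA⟩

end Pool.Agent.Q216.Onto
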